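import Pool.Agent.SerreW.FINALW

/-!
# Serre's conjecture at `p = 3` for all `ρ` induced from `K(√-3)`, for all `K` of class number one

`O = ℤ[ω]`, `ω² = a + b ω`, with `(a, b) = (fA i, fB i)`, `i = 0, …, 7`, is the ring of integers of
`K = ℚ(√-D)`, `D = 4, 8, 7, 11, 19, 43, 67, 163`: these are the eight imaginary quadratic fields of
class number one in which `3` is unramified.  `Ti O = O[ζ]`, `ζ² = -1 - ζ`, is the ring of integers
of `L = K(√-3)`.  A ring class character `χ` of `L/K` with values in `𝔽̄₃ˣ` gives the
representation `ρ = Ind χ`, whose determinant is the cyclotomic character; its Frobenius trace at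
`π` is `χ(w) + χ(w̄)` if `π` is the norm of `w ∈ O[ζ]` up to a unit, and `0` if `-3` is not a square
modulo `π`.  If `χ² ≠ 1` then `ρ` is irreducible, and if `χ` has conductor `f`, prime to `3`, then
its Serre conductor is `f²`.  Every irreducible `ρ` induced from `K(√-3)` which satisfies the
hypotheses of the conjecture for `p = 3` is of this form.

Idea of the proof.  As in the case of a primitive `χ²`, a twisted cocycle on `GL₂(O)` with values in
the functions on `GL₂(O/f)` is built from signed intersection numbers of geodesic planes with the
axes of the conjugates of `ζ`.  A character `χ` whose square is not primitive is, on the units which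
are `1` modulo a proper divisor of `f`, a function of the norm.  The passage to the level `Γ₀(f²)` is
therefore made through a twisted sum over the matrices `[[f, f₁ c], [0, s]]` (`f = e f₁ = m s`),
weighted with the values of a primitive character modulo `e` and with the values of the same
character on the diagonal torus modulo `f`; that nothing is lost follows from Gauss sums and from
the Fourier transform on `O/m`.
-/

namespace Pool.Agent.Results.MP_94f623_nt.AllThree

open SerreT

/-- Let `O = OD (fA i) (fB i)` be the ring of integers of one of the eight imaginary quadratic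
fields of class number one in which `3` is unramified, let `f ∈ O` be prime to `3` and let `χ` be a
character of `(O[ζ]/f)ˣ` with values in `𝔽̄₃ˣ`, trivial on `(O/f)ˣ` and on the units of `O[ζ]`, such
that `χ²` is non-trivial and `χ` has conductor exactly `f`.  Then there is a homomorphism `Φ` from
the Hecke algebra of `H¹(Y₀(f²), 𝔽̄₃)` to `𝔽̄₃` such that, for all primes `π` not dividing `3f`,
`Φ(T_π) = χ(w) + χ(w̄)` if the norm of `w ∈ O[ζ]` is `π` up to a unit, and `Φ(T_π) = 0` if
`l² + l + 1` has no root modulo `π`. -/
theorem result (i : Fin 8) (f : OD (fA i) (fB i)) (hf3 : IsCoprime f 3)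
    (χ : Ti (OD (fA i) (fB i)) → FF) (h : SerreW.RingClassChar f χ) :
    ∃ Φ : Eigenform (f ^ 2), Attached Φ χ :=
  SerreW.finalW i f hf3 χ h

end Pool.Agent.Results.MP_94f623_nt.AllThree
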