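import Pool.Agent.Lit.Fin

/-!
# Q1 of MP_94f623 as worded is false: `K = ℚ(√-11)`, `p = 2`

`O = ℤ[w]`, `w² = w - 3`, is the ring of integers of `K = ℚ(√-11)` (class number one, `2` is inert),
`N = 2 + 5w` is a prime of norm `89`.  Let `ν` be the cubic character of `G_K` of conductor `(2)` cut
out by `f₁ = x³ - w x² + (w-1) x + 1` (discriminant `4`) and `ρ₀ : G_K → S₃ = GL₂(𝔽₂)` the
representation of `f₂ = x³ + (2w-4) x + (2w-2)` (discriminant `-4N`), `ρ = ν ⊗ ρ₀`.  Then `ρ` is
irreducible, of Serre conductor `(N)`, `det ρ = ν²` is unramified outside `2`, and the restriction of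
`ρ` to a decomposition group at `2` is a sum of two characters with values in `𝔽₄ˣ`, realised by
Raynaud's group schemes `X⁴ = a X` over the valuation ring of the decomposition field.
At the prime `w` of norm `3` both cubics reduce to `x³ - x + 1`, so `Tr ρ(Frob_w) = ζ₃^{±1}`, while
`T_w² = T_w` on `H¹(Y₀(N), 𝔽̄₂)` (a space of dimension two).  So no eigenform of level `N` is
attached to `ρ`.

The determinant of `ρ` on inertia at `2` is a fundamental character of level two, so it is not the
mod `2` cyclotomic character, which is trivial; the hypotheses of Q1 as worded do not exclude this.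
-/

namespace Pool.Agent.Results.MP_94f623_nt.LiteralCounterexample

open SerreK LitS

/-- There are a finite Galois extension `M` of `K = ℚ(√-11)` and an irreducible
`ρ : Gal(M/K) → GL₂(𝔽̄₂)` with Serre conductor `(N)`, `N = 2 + 5w`, with `det ρ` unramified outside
`2`, and finite flat at `2`, such that no ring homomorphism `Φ` from the Hecke ring of
`H¹(Y₀(N), 𝔽̄₂)` to `𝔽̄₂` satisfies `Tr ρ(Frob_π) = Φ(T_π)` for all primes `π` not dividing `2N`. -/
theorem result : ∃ (E : Ext) (ρ : Rep E), Irred ρ ∧ SerreConductor ρ (elt 2 5) ∧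
    TrivialCharacter ρ ∧
    (∀ (P : Ideal (In E)) (hP : P.IsPrime), (2 : In E) ∈ P → FiniteFlatAt ρ P hP) ∧
    ∀ Φ : HR (elt 2 5) →+* FF, ¬ Attached ρ Φ :=
  fin_main

end Pool.Agent.Results.MP_94f623_nt.LiteralCounterexample
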