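import Pool.Agent.QTW.Fin

/-!
# Serre's conjecture at `p = 2` for restrictions to `K` of representations of `G_ℚ`, at the exact level

`O = OK n = ℤ[ω]`, `ω² = ω - (n + 1)`, is the ring of integers of `K = ℚ(√-d)`, `d = 4n + 3`; for
`n = 0, 1, 2, 4, 10, 16, 40` these are the seven imaginary quadratic fields of class number one in
which `2` is unramified (`d = 3, 7, 11, 19, 43, 67, 163`).  `M` is a positive integer prime to `2d`.

`Herm n M` is the set of the positive definite hermitian matrices `[[A, B], [B̄, C]]` over `O` of
determinant `1` with `M ∣ A`.  The group `Γ₀(M)` acts on it with finitely many orbits.  A function `ψ`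
on the orbits with values in `𝔽̄₂` is the same thing as a mod `2` modular form of weight `2` and level
`M` on the definite quaternion algebra over `ℚ` of discriminant `d` (the hermitian form `h` gives the
quaternion order of the matrices fixed by the involution `g ↦ γ_h ḡ γ_h⁻¹`), and the sum over the
`p`-neighbours is the Hecke operator `T_p`.  So an eigenfunction `ψ` with eigenvalues `b p` corresponds
to a representation `ρ₀ : G_ℚ → GL₂(𝔽̄₂)` with Frobenius traces `b p`, unramified outside `2dM`, with
determinant `1`, finite flat at `2`, and unipotent on inertia at `d`.  The image of `ρ₀` need not be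
solvable.  The restriction `ρ` of `ρ₀` to `G_K` has the Frobenius traces `b p` at the primes of norm
`p`, `(b p)²` at the inert primes `p` and, since it is unramified at `√-d` (inertia at `d` acts through
a group of order at most `2` which dies in `K`) with Frobenius eigenvalues `1, 1`, the trace `0` at
`√-d`.  Its Serre conductor is the prime to `2d` part of that of `ρ₀`, a divisor of `M`.  The theorem
says that `ρ` is modular of level `M`, without the extra level at `√-d` which base change gives.

Idea of the proof.  `h ∈ Herm n M` gives the matrix `γ_h = [[B̄, C], [-A, -B]] ∈ Γ₀(M)` with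
`γ_h γ̄_h = -1`, so `τ_h = γ_h σ` (`σ` complex conjugation) is an involution modulo scalars, which acts
on hyperbolic `3`-space as the reflection in a point.  For a homomorphism `ξ` from `Γ₀(M) ⋊ ⟨σ⟩` to
`𝔽̄₂` one has `(T ξ)(τ_h) = Σ ξ(τ_k)` for the operator `T = T_π T_π̄` (`p = π π̄`) or `T = T_p` (`p` inert),
where `k` runs over the `p`-neighbours of `h`: the other terms cancel in pairs in characteristic `2`.
A duality statement, obtained from mod `2` intersection numbers of equivariant two-dimensional chains
with the half-turn spheres at the fixed points of the `τ_h` in the cone of positive definite hermitian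
forms (point reflection theorem, `point`), shows that `ψ²`, or the functional given by it, is
seen by such homomorphisms.  Finally a relation `Σ c_l T_l = 0` between words in the Hecke operators gives
`Σ c_i c_j T_{l_i} T_{l̄_j} = 0`, and by symmetry under `σ` in characteristic `2` only the diagonal terms
contribute to the functional, so `(Σ c_l a_l)² = 0` for the square roots `a_π` of the eigenvalues.
-/

namespace Pool.Agent.Results.MP_94f623_nt.QuaternionTwo

open SerreE SerreK QTW

/-- Let `n ∈ {0, 1, 2, 4, 10, 16, 40}`, `d = 4n + 3`, `O = OK n` the ring of integers of `K = ℚ(√-d)`, let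
`M` be prime to `2d`, and let `ψ ≠ 0` be a function with values in `𝔽̄₂` on the positive definite
hermitian matrices `[[A, B], [B̄, C]]` over `O` of determinant `1` with `M ∣ A`, which is invariant
under `Γ₀(M)` and an eigenfunction of the sums over the `p`-neighbours with eigenvalues `b p` for all
primes `p` not dividing `2dM`.  Assume that `b q ≠ 0` for some prime `q ≡ 3 mod 4`, inert in `K` and not
dividing `M`.  Then there is a homomorphism `Φ` from the Hecke algebra of `H¹(Y₀(M), 𝔽̄₂)` to `𝔽̄₂` such
that, for all primes `π` of `O` not dividing `2M`, `Φ(T_π) = b p` if `π` has norm `p ≠ d`,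
`Φ(T_π) = (b p)²` if `π = p` is inert, and `Φ(T_π) = 0` if `π = √-d`. -/
theorem result (n : ℕ) (hn : n ∈ ({0, 1, 2, 4, 10, 16, 40} : Finset ℕ)) (M : ℕ)
    (hM : M.Coprime (2 * (4 * n + 3))) (ψ : Herm n M → FF) (b : ℕ → FF) (h : QEig ψ b)
    (hψ : ψ ≠ 0) (q : ℕ) (hq : q.Prime) (hq4 : q % 4 = 3) (hqi : Prime (q : OK n))
    (hqM : ¬ q ∣ M) (hbq : b q ≠ 0) : ∃ Φ : Eigenform (M : OK n), AttQ Φ b :=
  main hn hM ψ b h hψ q hq hq4 hqi hqM hbq

end Pool.Agent.Results.MP_94f623_nt.QuaternionTwo
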