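import Pool.Agent.SerreU.UMAIN

/-!
# Serre's conjecture at `p = 2` for all representations with solvable image, `K` of class number one

`O = OK n = ℤ[ω]`, `ω² = ω - (n + 1)`, is the ring of integers of `K = ℚ(√-(4n+3))`; for
`n = 0, 1, 2, 4, 10, 16, 40` these are the seven imaginary quadratic fields of class number one in
which `2` is unramified (`4n + 3 = 3, 7, 11, 19, 43, 67, 163`).  `N ∈ O` is prime to `2`, `-N` is
not a square, `RN N = O[√-N]`, and `χ` is a non-trivial character of the class group of `O[√-N]`
with values in `𝔽̄₂ˣ`, given as a function on the ideals prime to `2N`.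

Let `ρ : G_K → GL₂(𝔽̄₂)` be irreducible with solvable image, of determinant `1`, finite flat at `2`,
and let `N` be its Serre conductor.  Then `ρ = Ind χ` for a quadratic extension `L` of `K` and a
ring class character `χ` of `L`; finite flatness gives `L = K(√-δ)` with `δ` squarefree and prime to
`2`, the Serre conductor is `δ f²` where `f` is the prime to `2` part of the conductor of `χ`, and
`χ` factors through the class group of `O[f √-δ]`.  So the theorem below contains all these `ρ`, at
the level predicted by the conjecture.

Idea of the proof.  Let `Γ` be the group generated by `Γ₀(N)` and `[[0, -1], [N, 0]]` modulo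
scalars.  An ideal `I` of `O[√-N]` gives the involution `w_I` of `Γ`, the multiplication by `√-N` on
`I`, whose centraliser is given by the units of `O[√-N]`, with fundamental unit `η_I`.  For a
homomorphism `x : Γ → 𝔽̄₂`, `(T_π x)(w_I) = x(w_{𝔓 I}) + x(w_{𝔓̄ I})`, and the same for `η_I`: the
other neighbours cancel in pairs in characteristic `2`.  A duality statement, obtained from mod `2`
intersection numbers of two-dimensional chains with the axes of the involutions `w_I` in the cone of
positive definite hermitian forms, shows that one of the two families of functionals is non-zero on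
the `χ`-part.
-/

namespace Pool.Agent.Results.MP_94f623_nt.SolvableTwo

open SerreE SerreK SerreU

/-- Let `n ∈ {0, 1, 2, 4, 10, 16, 40}`, `O = OK n` the ring of integers of `K = ℚ(√-(4n+3))`, let
`N ∈ O` be prime to `2` with `-N` not a square, and let `χ` be a non-trivial character with values
in `𝔽̄₂ˣ` of the class group of `O[√-N]`.  Then there is a homomorphism `Φ` from the Hecke algebra
of `H¹(Y₀(N), 𝔽̄₂)` to `𝔽̄₂` such that, for all primes `π` not dividing `2N`,
`Φ(T_π) = χ(𝔓) + χ(𝔓̄)` if `π ∣ t² + N` and `𝔓 = (π, √-N - t)`, `𝔓̄ = (π, √-N + t)`, and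
`Φ(T_π) = 0` if `-N` is not a square modulo `π`. -/
theorem result (n : ℕ) (hn : n ∈ ({0, 1, 2, 4, 10, 16, 40} : Finset ℕ)) (N : OK n)
    (hN2 : IsCoprime N 2) (hns : ∀ t : OK n, t ^ 2 ≠ -N) (χ : Ideal (RN N) → FF)
    (h : RCC N χ) : ∃ Φ : Eigenform N, Att Φ χ :=
  finalU n hn N hN2 hns χ h

end Pool.Agent.Results.MP_94f623_nt.SolvableTwo
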